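import Pool.Agent.Work.MP_edf6ee_al.CP.Stmts

/-!
# MP_edf6ee_al: independent families of continuum size
-/

set_option autoImplicit false

namespace Pool.Agent.Work.MP_edf6ee_al.SD

open scoped BigOperators
open Pool.Agent.Work.MP_edf6ee_al.CP

/-- IN0: a nonzero pp-definable subgroup contains a continuum of independent maximal elements. -/
def S_IN0 : Prop :=
  ∀ (R : Type) [Ring R] (N : Type) [AddCommGroup N] [Module R N], Good R N → NoMin R N →
    ∀ χ ∈ D1 R N, χ ≠ ⊥ → ∃ b : (ℕ → Bool) → N, (∀ f, b f ∈ χ ∧ MaxEl R N (b f)) ∧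
      ∀ (F : Finset (ℕ → Bool)) (g : (ℕ → Bool) → Module.End R N),
        ∑ f ∈ F, g f (b f) = 0 → ∀ f ∈ F, g f (b f) = 0

theorem pr_IN0 (hNU : S_NU) (hMAX : S_MAX) (hCL1 : S_CL1) : S_IN0 := by
  intro R _ N _ _ hG hNM χ hχ hχ0
  classical
  obtain ⟨hbot, htop, hinf, hsup, hend⟩ := hCL1 R N
  have : Nontrivial N := hG.nt
  have hst : ∀ φ : {φ : AddSubgroup N // φ ∈ D1 R N ∧ φ ≠ ⊥},
      ∃ V : Bool → {φ : AddSubgroup N // φ ∈ D1 R N ∧ φ ≠ ⊥},
        (∀ l, (V l).1 ≤ φ.1) ∧ (V true).1 ⊓ (V false).1 = ⊥ := by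
    intro φ
    obtain ⟨α, hα, β, hβ, hα0, hβ0, hαφ, hβφ, hαβ⟩ := hNU R N hG hNM φ.1 φ.2.1 φ.2.2
    refine ⟨fun l => if l then ⟨α, hα, hα0⟩ else ⟨β, hβ, hβ0⟩, ?_, ?_⟩
    · intro l
      cases l
      · simpa using hβφ
      · simpa using hαφ
    · simpa using hαβ
  choose st hst1 hst2 using hst
  let Φ : (ℕ → Bool) → ℕ → {φ : AddSubgroup N // φ ∈ D1 R N ∧ φ ≠ ⊥} := fun f n =>
    Nat.rec ⟨χ, hχ, hχ0⟩ (fun n φ => st φ (f n)) n
  have hΦs : ∀ f n, Φ f (n + 1) = st (Φ f n) (f n) := fun f n => rfl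
  have hΦ0 : ∀ f, (Φ f 0).1 = χ := fun f => rfl
  have hanti : ∀ f n m, n ≤ m → (Φ f m).1 ≤ (Φ f n).1 := by
    intro f n m hnm
    induction hnm with
    | refl => exact le_refl _
    | step h ih => exact le_trans (hst1 _ _) ih
  have hagree : ∀ f g : ℕ → Bool, ∀ n, (∀ m, m < n → f m = g m) → Φ f n = Φ g n := by
    intro f g n
    induction n with
    | zero => intro _; rfl
    | succ n ih =>
      intro h
      rw [hΦs, hΦs, ih (fun m hm => h m (by omega)), h n (by omega)]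
  -- the elements
  have hb : ∀ f : ℕ → Bool, ∃ b : N, (∀ n, b ∈ (Φ f n).1) ∧ MaxEl R N b := by
    intro f
    have hT : TS R N {B | B ∈ D1 R N ∧ ∃ n, (Φ f n).1 ≤ B} := by
      refine ⟨fun B hB => hB.1, ⟨htop, 0, le_top⟩, ?_, ?_⟩
      · rintro A ⟨hA, n, hn⟩ B hB hAB
        exact ⟨hB, n, hn.trans hAB⟩
      · rintro A ⟨hA, n, hn⟩ B ⟨hB, m, hm⟩
        refine ⟨hinf A hA B hB, max n m, le_inf ?_ ?_⟩
        · exact (hanti f n _ (le_max_left _ _)).trans hn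
        · exact (hanti f m _ (le_max_right _ _)).trans hm
    obtain ⟨p, hp1, hp2, hp3, hp4, hp5⟩ := hMAX R N {B | B ∈ D1 R N ∧ ∃ n, (Φ f n).1 ≤ B} {⊥} hT
      (by intro B hB; rw [Set.mem_singleton_iff] at hB; rw [hB]; exact hbot)
      ⟨⊥, rfl⟩
      (by
        intro α hα β hβ
        rw [Set.mem_singleton_iff] at hα hβ
        exact ⟨⊥, rfl, by rw [hα, hβ]; simp⟩)
      (by
        rintro ω hω ⟨_, n, hn⟩
        rw [Set.mem_singleton_iff] at hω
        rw [hω] at hn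
        exact (Φ f n).2.2 (le_bot_iff.1 hn))
    have hpb : (⊥ : AddSubgroup N) ∉ p := hp4 ⊥ rfl
    obtain ⟨b, hb⟩ := hG.real p hp1 hp2 hpb
    refine ⟨b, fun n => ?_, ?_, ?_⟩
    · exact (hb _ (Φ f n).2.1).1 (hp3 ⟨(Φ f n).2.1, n, le_refl _⟩)
    · intro h0
      apply hpb
      rw [hb ⊥ hbot, h0]
      exact AddSubgroup.zero_mem _
    · intro A hA hbA
      obtain ⟨φ, hφ, ω, hω, h⟩ := hp5 A hA (fun h => hbA ((hb A hA).1 h))
      rw [Set.mem_singleton_iff] at hω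
      rw [hω] at h
      exact ⟨φ, hp1.sub hφ, (hb φ (hp1.sub hφ)).1 hφ, le_bot_iff.1 h⟩
  choose b hb1 hb2 using hb
  refine ⟨b, fun f => ⟨hb1 f 0, hb2 f⟩, ?_⟩
  intro F g hsum
  have hx : ∀ f n, g f (b f) ∈ (Φ f n).1 := fun f n => hend _ (Φ f n).2.1 (g f) _ (hb1 f n)
  have key : ∀ (n : ℕ) (t : ℕ → Bool),
      ∑ f ∈ F.filter (fun f => ∀ m, m < n → f m = t m), g f (b f) = 0 := by
    intro n
    induction n with
    | zero =>
      intro t
      simpa using hsum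
    | succ n ih =>
      intro t
      have h0 := ih t
      rw [← Finset.sum_filter_add_sum_filter_not _ (fun f => f n = t n)] at h0
      have h1 : ∑ f ∈ (F.filter (fun f => ∀ m, m < n → f m = t m)).filter (fun f => f n = t n),
          g f (b f) ∈ (st (Φ t n) (t n)).1 := by
        refine AddSubgroup.sum_mem _ fun f hf => ?_
        rw [Finset.mem_filter, Finset.mem_filter] at hf
        have h2 := hx f (n + 1)
        rw [hΦs, hagree f t n hf.1.2, hf.2] at h2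
        exact h2
      have h2 : ∑ f ∈ (F.filter (fun f => ∀ m, m < n → f m = t m)).filter (fun f => ¬ f n = t n),
          g f (b f) ∈ (st (Φ t n) (!(t n))).1 := by
        refine AddSubgroup.sum_mem _ fun f hf => ?_
        rw [Finset.mem_filter, Finset.mem_filter] at hf
        have h3 := hx f (n + 1)
        have h4 : f n = !(t n) := by
          have h5 := hf.2
          revert h5
          cases f n <;> cases t n <;> simp
        rw [hΦs, hagree f t n hf.1.2, h4] at h3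
        exact h3
      have h3 : ∑ f ∈ (F.filter (fun f => ∀ m, m < n → f m = t m)).filter (fun f => f n = t n),
          g f (b f) ∈ (⊥ : AddSubgroup N) := by
        have h4 : ∑ f ∈ (F.filter (fun f => ∀ m, m < n → f m = t m)).filter
            (fun f => f n = t n), g f (b f) ∈ (st (Φ t n) (!(t n))).1 := by
          rw [eq_neg_of_add_eq_zero_left h0]
          exact AddSubgroup.neg_mem _ h2
        rw [← hst2 (Φ t n)]
        cases htn : t n
        · rw [htn] at h1 h4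
          exact ⟨by simpa using h4, h1⟩
        · rw [htn] at h1 h4
          exact ⟨h1, by simpa using h4⟩
      rw [AddSubgroup.mem_bot] at h3
      rw [← h3, Finset.filter_filter]
      refine Finset.sum_congr (Finset.filter_congr fun f _ => ?_) fun _ _ => rfl
      constructor
      · intro h
        exact ⟨fun m hm => h m (by omega), h n (by omega)⟩
      · rintro ⟨h, h'⟩ m hm
        rcases Nat.lt_succ_iff_lt_or_eq.1 hm with h'' | h''
        · exact h m h''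
        · rw [h'']; exact h'
  intro f hf
  have hsep : ∀ f' : ℕ → Bool, ∃ n, f' ≠ f → ∃ m, m < n ∧ f' m ≠ f m := by
    intro f'
    by_cases h : f' = f
    · exact ⟨0, fun h' => absurd h h'⟩
    · have hex : ∃ m, f' m ≠ f m := by
        by_contra h'
        push Not at h'
        exact h (funext h')
      obtain ⟨m, hm⟩ := hex
      exact ⟨m + 1, fun _ => ⟨m, by omega, hm⟩⟩
  choose n hn using hsep
  have hk := key (F.sup n) f
  have hs : F.filter (fun f' => ∀ m, m < F.sup n → f' m = f m) = {f} := by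
    ext f'
    rw [Finset.mem_filter, Finset.mem_singleton]
    constructor
    · rintro ⟨h1, h2⟩
      by_contra hne
      obtain ⟨m, hm, hm'⟩ := hn f' hne
      exact hm' (h2 m (lt_of_lt_of_le hm (Finset.le_sup h1)))
    · rintro rfl
      exact ⟨hf, fun _ _ => rfl⟩
  rw [hs, Finset.sum_singleton] at hk
  exact hk

/-- IND: every nonzero interval of pp-definable subgroups contains a continuum of independent
nonzero submodules over the endomorphism ring. -/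
def S_IND : Prop :=
  ∀ (R : Type) [Ring R] (N : Type) [AddCommGroup N] [Module R N], Good R N → NoMin R N →
    ∀ ψ ∈ D1 R N, ∀ φ ∈ D1 R N, ψ < φ → ∃ y : (ℕ → Bool) → N, (∀ f, y f ∈ φ ∧ y f ∉ ψ) ∧
      ∀ (F : Finset (ℕ → Bool)) (g : (ℕ → Bool) → Module.End R N),
        ∑ f ∈ F, g f (y f) ∈ ψ → ∀ f ∈ F, g f (y f) ∈ ψ

/-- relations are preserved by endomorphisms -/
theorem d2_end (hBAS : S_BAS) (R : Type) [Ring R] (N : Type) [AddCommGroup N] [Module R N]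
    (B : AddSubgroup (N × N)) (hB : B ∈ D2 R N) (g : Module.End R N) (x y : N)
    (h : (x, y) ∈ B) : (g x, g y) ∈ B := by
  obtain ⟨φ, hφ⟩ := hB
  rw [hφ] at h ⊢
  have h1 := (hBAS R 2 φ N).2.2.2 N g ![x, y] h
  have h2 : (fun i => g (![x, y] i)) = ![g x, g y] := by
    funext i
    fin_cases i <;> rfl
  rwa [h2] at h1

theorem pr_IND (hIN0 : S_IN0) (hMR : S_MR) (hCL1 : S_CL1) (hCL2 : S_CL2) (hBAS : S_BAS) :
    S_IND := by
  intro R _ N _ _ hG hNM ψ hψ φ hφ hlt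
  classical
  obtain ⟨hbot, htop, hinf, hsup, hend⟩ := hCL1 R N
  have : Nontrivial N := hG.nt
  obtain ⟨a, haφ, haψ, hamax⟩ := hMR R N hG ψ hψ φ hφ (not_le_of_gt hlt)
  obtain ⟨c, -, hc0, hcmax⟩ := hMR R N hG ⊥ hbot ⊤ htop
    (fun h => top_ne_bot (le_bot_iff.1 h))
  rw [AddSubgroup.mem_bot] at hc0
  obtain ⟨B, hB, hcaB, hcyB⟩ := hG.link c hc0 ψ hψ a haψ
  obtain ⟨A0, hA0, hA0m⟩ := (hCL2 R N B hB).coker
  have haη : a ∉ A0 ⊔ ψ := by
    intro h
    rw [AddSubgroup.mem_sup] at h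
    obtain ⟨y0, hy0, y1, hy1, hy⟩ := h
    apply hcyB y1 hy1
    have h1 : (c, y1) = (c, a) - (0, y0) := by
      rw [← hy]
      ext <;> simp
    rw [h1]
    exact B.sub_mem hcaB ((hA0m y0).1 hy0)
  obtain ⟨C, hC, haC, hCη⟩ := hamax (A0 ⊔ ψ) (hsup _ hA0 _ hψ) haη
  have hC' : C ⊓ φ ∈ D1 R N := hinf _ hC _ hφ
  obtain ⟨B', hB', hB'm⟩ := (hCL2 R N B hB).cut ⊤ htop (C ⊓ φ) hC'
  have hcaB' : (c, a) ∈ B' := (hB'm c a).2 ⟨hcaB, trivial, haC, haφ⟩
  obtain ⟨Z, hZ, hZm⟩ := (hCL2 R N B' hB').pre ψ hψ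
  have hcZ : c ∉ Z := by
    intro h
    obtain ⟨y, hy, hyB⟩ := (hZm c).1 h
    exact hcyB y hy ((hB'm c y).1 hyB).1
  obtain ⟨D, hD, hcD, hDZ⟩ := hcmax Z hZ hcZ
  obtain ⟨dm, hdm, hdmm⟩ := (hCL2 R N B' hB').dom
  have hχ : D ⊓ dm ∈ D1 R N := hinf _ hD _ hdm
  have hcχ : c ∈ D ⊓ dm := ⟨hcD, (hdmm c).2 ⟨a, hcaB'⟩⟩
  have hχ0 : D ⊓ dm ≠ ⊥ := by
    intro h
    rw [h, AddSubgroup.mem_bot] at hcχ
    exact hc0 hcχ
  obtain ⟨b, hb, hbind⟩ := hIN0 R N hG hNM (D ⊓ dm) hχ hχ0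
  have hy : ∀ f, ∃ y, (b f, y) ∈ B' := fun f => (hdmm (b f)).1 (hb f).1.2
  choose y hy using hy
  have hyC : ∀ f, y f ∈ C ⊓ φ := fun f => ((hB'm (b f) (y f)).1 (hy f)).2.2
  have hbD : ∀ z : N, z ∈ D → z ∈ Z → z = 0 := by
    intro z h1 h2
    have h3 := hDZ (show z ∈ D ⊓ Z from ⟨h1, h2⟩)
    rwa [AddSubgroup.mem_bot] at h3
  refine ⟨y, fun f => ⟨(hyC f).2, fun h => (hb f).2.1 (hbD _ (hb f).1.1 ?_)⟩, ?_⟩
  · exact (hZm _).2 ⟨y f, h, hy f⟩
  · intro F g hsum f hf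
    have h1 : (∑ f ∈ F, g f (b f), ∑ f ∈ F, g f (y f)) ∈ B' := by
      have h2 : ∑ f ∈ F, ((g f (b f), g f (y f)) : N × N) ∈ B' :=
        AddSubgroup.sum_mem _ fun f _ => d2_end hBAS R N B' hB' (g f) _ _ (hy f)
      have h3 : (∑ f ∈ F, g f (b f), ∑ f ∈ F, g f (y f)) = ∑ f ∈ F, ((g f (b f), g f (y f)) : N × N) := by
        ext
        · simp [Prod.fst_sum]
        · simp [Prod.snd_sum]
      rw [h3]
      exact h2
    have h4 : ∑ f ∈ F, g f (b f) = 0 := by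
      refine hbD _ (AddSubgroup.sum_mem _ fun f _ => hend D hD (g f) _ (hb f).1.1) ?_
      exact (hZm _).2 ⟨_, hsum, h1⟩
    have h5 := hbind F g h4 f hf
    have h6 := d2_end hBAS R N B' hB' (g f) _ _ (hy f)
    rw [h5] at h6
    have h7 := (hB'm _ _).1 h6
    exact hCη ⟨h7.2.2.1, (le_sup_left : A0 ≤ _) ((hA0m _).2 h7.1)⟩

end Pool.Agent.Work.MP_edf6ee_al.SD
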