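import Pool.Agent.Work.MP_edf6ee_al.SD.Gen
import Pool.Agent.Work.MP_edf6ee_al.SD.Ind

/-!
# MP_edf6ee_al: assembly for small closed points
-/

set_option autoImplicit false

namespace Pool.Agent.Work.MP_edf6ee_al.SD

open scoped BigOperators Cardinal
open Pool.Agent.Work.MP_edf6ee_al.CP

/-- a closed point of infinite endolength has no minimal pairs -/
theorem noMin_of (hF0 : S_F0) (hFL : S_FL) (R : Type) [Ring R] (N : Type) [AddCommGroup N]
    [Module R N] (hG : Good R N) (hinf : ¬ IsFiniteLength (Module.End R N) N) : NoMin R N := by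
  by_contra hmin
  unfold NoMin at hmin
  push Not at hmin
  obtain ⟨ψ, hψ, φ, hφ, hmp⟩ := hmin
  exact hinf (hFL R N hG.ac (hF0 R N hG ψ hψ φ hφ hmp))

/-- over a noetherian algebra: if a continuum of elements of `N`, nonzero and independent over the
endomorphism ring, come from `M`, then every generating set of `M` has at least continuum many
elements -/
theorem gen_big (K : Type) [CommRing K] [IsNoetherianRing K] (R : Type) [Ring R] [Algebra K R]
    [Module.Finite K R] (N : Type) [AddCommGroup N] [Module R N]
    (M : Type) [AddCommGroup M] [Module R M] (h : M →ₗ[R] N)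
    (y : (ℕ → Bool) → N) (hy : ∀ f, y f ≠ 0)
    (hind : ∀ (F : Finset (ℕ → Bool)) (g : (ℕ → Bool) → Module.End R N),
      ∑ f ∈ F, g f (y f) = 0 → ∀ f ∈ F, g f (y f) = 0)
    (u : (ℕ → Bool) → M) (hu : ∀ f, h (u f) = y f)
    (X : Set M) (hX : Submodule.span R X = ⊤) : Cardinal.continuum ≤ #X := by
  classical
  letI : Module K N := Module.compHom N (algebraMap K R)
  letI : Module K M := Module.compHom M (algebraMap K R)
  have : IsScalarTower K R N := ⟨fun k r x => by
    show (k • r) • x = algebraMap K R k • (r • x)
    rw [Algebra.smul_def, mul_smul]⟩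
  have : IsScalarTower K R M := ⟨fun k r x => by
    show (k • r) • x = algebraMap K R k • (r • x)
    rw [Algebra.smul_def, mul_smul]⟩
  by_contra hlt
  push Not at hlt
  -- every element lies in the span of a finite subset
  have hfin : ∀ f : ℕ → Bool, ∃ S : Finset X, u f ∈ Submodule.span R (((↑) : X → M) '' (S : Set X)) := by
    intro f
    have h1 : u f ∈ Submodule.span R X := by rw [hX]; trivial
    obtain ⟨T, hT, hyT⟩ := Submodule.mem_span_finite_of_mem_span h1
    refine ⟨T.subtype (· ∈ X), ?_⟩
    refine Submodule.span_mono ?_ hyT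
    intro t ht
    exact ⟨⟨t, hT ht⟩, by simpa using ht, rfl⟩
  choose S hS using hfin
  have hcard : #(Finset X) < #(ℕ → Bool) := by
    have h2 : #(ℕ → Bool) = Cardinal.continuum := by simp
    rw [h2]
    rcases finite_or_infinite X with hf | hi
    · have : Finite (Finset X) := inferInstance
      exact (Cardinal.lt_aleph0_of_finite _).trans Cardinal.aleph0_lt_continuum
    · rw [Cardinal.mk_finset_of_infinite]
      exact hlt
  obtain ⟨S0, hS0⟩ := Cardinal.exists_infinite_fiber S hcard
  have hTinf : (S ⁻¹' {S0}).Infinite := Set.infinite_coe_iff.1 hS0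
  -- the finitely generated submodule
  let L : Submodule R M := Submodule.span R (((↑) : X → M) '' (S0 : Set X))
  have hLfg : L.FG := by
    refine ⟨S0.image (↑), ?_⟩
    rw [Finset.coe_image]
  have : Module.Finite R L := Module.Finite.iff_fg.2 hLfg
  have : Module.Finite K L := Module.Finite.trans R L
  have : IsNoetherian K L := inferInstance
  have hLK : IsNoetherian K (L.restrictScalars K) := this
  rw [isNoetherian_submodule] at hLK
  have hyL : ∀ f ∈ S ⁻¹' {S0}, u f ∈ L := by
    intro f hf
    have h3 := hS f
    rw [Set.mem_preimage, Set.mem_singleton_iff] at hf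
    rw [hf] at h3
    exact h3
  have hW := hLK (Submodule.span K (u '' (S ⁻¹' {S0}))) (by
    rw [Submodule.span_le]
    rintro _ ⟨f, hf, rfl⟩
    exact hyL f hf)
  rw [Submodule.fg_span_iff_fg_span_finset_subset] at hW
  obtain ⟨s', hs', hspan⟩ := hW
  obtain ⟨F, hF, hFs⟩ := Finset.subset_set_image_iff.1 hs'
  obtain ⟨f0, hf0, hf0F⟩ := hTinf.exists_notMem_finset F
  have h4 : u f0 ∈ Submodule.span K (u '' (F : Set (ℕ → Bool))) := by
    have h5 : u f0 ∈ Submodule.span K (u '' (S ⁻¹' {S0})) := Submodule.subset_span ⟨f0, hf0, rfl⟩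
    rw [hspan, ← hFs, Finset.coe_image] at h5
    exact h5
  rw [Submodule.mem_span_image_finset_iff_exists_fun'] at h4
  obtain ⟨c, hc⟩ := h4
  let sc : K → Module.End R N := fun k =>
    { toFun := fun x => algebraMap K R k • x
      map_add' := fun x z => smul_add _ _ _
      map_smul' := fun r x => by
        simp only [RingHom.id_apply, ← mul_smul, Algebra.commutes] }
  have hsc : ∀ k x, sc k (h x) = h (k • x) := fun k x => (h.map_smul (algebraMap K R k) x).symm
  have h6 := hind (insert f0 F) (fun f => if f = f0 then 1 else - sc (c f)) (by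
    rw [Finset.sum_insert hf0F]
    rw [if_pos rfl]
    have h7 : ∀ f ∈ F, (if f = f0 then (1 : Module.End R N) else - sc (c f)) (y f)
        = - h (c f • u f) := by
      intro f hf
      have hne : f ≠ f0 := by
        rintro rfl
        exact hf0F hf
      rw [if_neg hne, LinearMap.neg_apply, ← hu, hsc]
    rw [Finset.sum_congr rfl h7, Finset.sum_neg_distrib, ← map_sum, hc, hu]
    simp) f0 (Finset.mem_insert_self _ _)
  rw [if_pos rfl] at h6
  exact hy f0 h6

end Pool.Agent.Work.MP_edf6ee_al.SD
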