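import Pool.Agent.Work.MP_edf6ee_al.SD.Ind
import Pool.Agent.Work.MP_edf6ee_al.CP.I_GEXT

/-!
# MP_edf6ee_al: closed points which are direct summands of pure-injective envelopes
-/

set_option autoImplicit false

namespace Pool.Agent.Work.MP_edf6ee_al.SD

open scoped BigOperators Cardinal
open Pool.Agent.Work.MP_edf6ee_al.CP

/-- two formulas, with linear substitutions, under existential quantifiers -/
theorem NF2 (hNF : S_NF) (R : Type) [Ring R] (n k d₁ d₂ : ℕ) (φ₁ : PP R d₁) (φ₂ : PP R d₂)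
    (A₁ : Fin d₁ → Fin n → R) (B₁ : Fin d₁ → Fin k → R)
    (A₂ : Fin d₂ → Fin n → R) (B₂ : Fin d₂ → Fin k → R) :
    ∃ ψ : PP R n, ∀ (M : Type) [AddCommGroup M] [Module R M] (x : Fin n → M),
      ψ.Sat M x ↔ ∃ y : Fin k → M,
        φ₁.Sat M (fun j => ∑ i, A₁ j i • x i + ∑ l, B₁ j l • y l) ∧
        φ₂.Sat M (fun j => ∑ i, A₂ j i • x i + ∑ l, B₂ j l • y l) := by
  obtain ⟨ψ, h⟩ := hNF R n k 2 ![d₁, d₂]
    (Fin.cons (α := fun e => PP R (![d₁, d₂] e)) φ₁
      (Fin.cons (α := fun e => PP R (![d₁, d₂] (Fin.succ e))) φ₂ finZeroElim))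
    (Fin.cons (α := fun e => Fin (![d₁, d₂] e) → Fin n → R) A₁
      (Fin.cons (α := fun e => Fin (![d₁, d₂] (Fin.succ e)) → Fin n → R) A₂ finZeroElim))
    (Fin.cons (α := fun e => Fin (![d₁, d₂] e) → Fin k → R) B₁
      (Fin.cons (α := fun e => Fin (![d₁, d₂] (Fin.succ e)) → Fin k → R) B₂ finZeroElim))
  refine ⟨ψ, fun M _ _ x => (h M x).trans ?_⟩
  constructor
  · rintro ⟨y, hy⟩
    exact ⟨y, hy 0, hy 1⟩
  · rintro ⟨y, h1, h2⟩
    refine ⟨y, fun e => ?_⟩
    fin_cases e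
    · exact h1
    · exact h2

/-- the formula `∃ y, θ(y, z) ∧ κ(y)` in `z` -/
theorem exL (hNF : S_NF) (R : Type) [Ring R] (a b : ℕ) (θ : PP R (a + b)) (κ : PP R a) :
    ∃ ψ : PP R b, ∀ (M : Type) [AddCommGroup M] [Module R M] (z : Fin b → M),
      ψ.Sat M z ↔ ∃ y : Fin a → M, θ.Sat M (Fin.append y z) ∧ κ.Sat M y := by
  classical
  obtain ⟨ψ, h⟩ := NF2 hNF R b a (a + b) a θ κ
    (Fin.addCases (fun _ _ => 0) (fun j i => if i = j then 1 else 0))
    (Fin.addCases (fun j i => if i = j then 1 else 0) (fun _ _ => 0))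
    (fun _ _ => 0) (fun j i => if i = j then 1 else 0)
  refine ⟨ψ, fun M _ _ z => (h M z).trans ?_⟩
  have e1 : ∀ y : Fin a → M, (fun j => ∑ i, (Fin.addCases (fun _ _ => 0)
      (fun j i => if i = j then 1 else 0) j : Fin b → R) i • z i +
      ∑ l, (Fin.addCases (fun j i => if i = j then 1 else 0) (fun _ _ => 0) j : Fin a → R) l • y l)
      = Fin.append y z := by
    intro y
    funext j
    refine Fin.addCases (fun j => ?_) (fun j => ?_) j
    · simp
    · simp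
  have e2 : ∀ y : Fin a → M, (fun j => ∑ i : Fin b, (0 : R) • z i +
      ∑ l, (if l = j then (1 : R) else 0) • y l) = y := by
    intro y
    funext j
    simp
  constructor
  · rintro ⟨y, h1, h2⟩
    rw [e1] at h1
    rw [e2] at h2
    exact ⟨y, h1, h2⟩
  · rintro ⟨y, h1, h2⟩
    refine ⟨y, ?_, ?_⟩
    · rw [e1]; exact h1
    · rw [e2]; exact h2

/-- the formula `∃ z, θ(y, z) ∧ κ(z)` in `y` -/
theorem exR (hNF : S_NF) (R : Type) [Ring R] (a b : ℕ) (θ : PP R (a + b)) (κ : PP R b) :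
    ∃ ψ : PP R a, ∀ (M : Type) [AddCommGroup M] [Module R M] (y : Fin a → M),
      ψ.Sat M y ↔ ∃ z : Fin b → M, θ.Sat M (Fin.append y z) ∧ κ.Sat M z := by
  classical
  obtain ⟨ψ, h⟩ := NF2 hNF R a b (a + b) b θ κ
    (Fin.addCases (fun j i => if i = j then 1 else 0) (fun _ _ => 0))
    (Fin.addCases (fun _ _ => 0) (fun j i => if i = j then 1 else 0))
    (fun _ _ => 0) (fun j i => if i = j then 1 else 0)
  refine ⟨ψ, fun M _ _ y => (h M y).trans ?_⟩
  have e1 : ∀ z : Fin b → M, (fun j => ∑ i, (Fin.addCases (fun j i => if i = j then 1 else 0)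
      (fun _ _ => 0) j : Fin a → R) i • y i +
      ∑ l, (Fin.addCases (fun _ _ => 0) (fun j i => if i = j then 1 else 0) j : Fin b → R) l • z l)
      = Fin.append y z := by
    intro z
    funext j
    refine Fin.addCases (fun j => ?_) (fun j => ?_) j
    · simp
    · simp
  have e2 : ∀ z : Fin b → M, (fun j => ∑ i : Fin a, (0 : R) • y i +
      ∑ l, (if l = j then (1 : R) else 0) • z l) = z := by
    intro z
    funext j
    simp
  constructor
  · rintro ⟨z, h1, h2⟩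
    rw [e1] at h1
    rw [e2] at h2
    exact ⟨z, h1, h2⟩
  · rintro ⟨z, h1, h2⟩
    refine ⟨z, ?_, ?_⟩
    · rw [e1]; exact h1
    · rw [e2]; exact h2

/-- the formula `x₀ = 0` -/
def zF (R : Type) [Ring R] : PP R 1 := ⟨1, 0, fun _ _ => 1, fun _ _ => 0⟩

theorem zF_sat (R : Type) [Ring R] (M : Type) [AddCommGroup M] [Module R M] (x : Fin 1 → M) :
    (zF R).Sat M x ↔ x 0 = 0 := by
  simp [zF, PP.Sat]

/-- the formula `ψ(z) ∧ y = w` in `((y, z), w)` -/
theorem lnF (hNF : S_NF) (R : Type) [Ring R] (k : ℕ) (ψ : PP R k) :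
    ∃ ψ' : PP R ((1 + k) + 1), ∀ (M : Type) [AddCommGroup M] [Module R M]
      (y w : Fin 1 → M) (z : Fin k → M),
      ψ'.Sat M (Fin.append (Fin.append y z) w) ↔ ψ.Sat M z ∧ y 0 = w 0 := by
  classical
  obtain ⟨ψ', h⟩ := NF2 hNF R ((1 + k) + 1) 0 k 1 ψ (zF R)
    (fun j => Fin.addCases (Fin.addCases (fun _ => 0) (fun i => if i = j then 1 else 0))
      (fun _ => 0)) (fun _ _ => 0)
    (fun _ => Fin.addCases (Fin.addCases (fun _ => 1) (fun _ => 0)) (fun _ => -1)) (fun _ _ => 0)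
  refine ⟨ψ', fun M _ _ y w z => (h M _).trans ?_⟩
  have e1 : ∀ v : Fin 0 → M, (fun j => ∑ i, (Fin.addCases (Fin.addCases (fun _ => 0)
      (fun i => if i = j then 1 else 0)) (fun _ => 0) : Fin ((1 + k) + 1) → R) i •
        (Fin.append (Fin.append y z) w) i + ∑ l, (0 : R) • v l) = z := by
    intro v
    funext j
    rw [Fin.sum_univ_add, Fin.sum_univ_add]
    simp
  have e2 : ∀ v : Fin 0 → M, (fun _ : Fin 1 => ∑ i, (Fin.addCases (Fin.addCases (fun _ => 1)
      (fun _ => 0)) (fun _ => -1) : Fin ((1 + k) + 1) → R) i •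
        (Fin.append (Fin.append y z) w) i + ∑ l, (0 : R) • v l) = fun _ => y 0 - w 0 := by
    intro v
    funext j
    rw [Fin.sum_univ_add, Fin.sum_univ_add]
    simp [sub_eq_add_neg]
  constructor
  · rintro ⟨v, h1, h2⟩
    rw [e1] at h1
    rw [e2, zF_sat] at h2
    exact ⟨h1, sub_eq_zero.1 h2⟩
  · rintro ⟨h1, h2⟩
    refine ⟨fun _ => 0, ?_, ?_⟩
    · rw [e1]; exact h1
    · rw [e2, zF_sat]; exact sub_eq_zero.2 h2

/-- linking a nonzero element with a generalised tuple -/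
theorem linkT (hGEXT : S_GEXT) (hCL1 : S_CL1) (hNF : S_NF) (hBAS : S_BAS) (R : Type) [Ring R]
    (N : Type) [AddCommGroup N] [Module R N] (hAC : AC R N) (hHP : HPr R N) (c : N) (hc : c ≠ 0)
    (k : ℕ) (ψ : PP R k) (x : Fin k → N) (hx : ¬ ψ.Sat N x) :
    ∃ θ : PP R (1 + k), θ.Sat N (Fin.append (fun _ => c) x) ∧
      ∀ y : Fin k → N, ψ.Sat N y → ¬ θ.Sat N (Fin.append (fun _ => c) y) := by
  by_contra hcon
  push Not at hcon
  obtain ⟨ψ', hψ'⟩ := lnF hNF R k ψ
  obtain ⟨f, hf⟩ := hGEXT R N N hAC (1 + k) 1 (Fin.append (fun _ => c) x) ψ' (fun _ => c) (by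
    intro φ hφ
    obtain ⟨y, hy, hyφ⟩ := hcon φ hφ
    refine ⟨_, hyφ, ?_⟩
    rw [hψ']
    exact ⟨hy, rfl⟩)
  have e : (fun i => f (Fin.append (fun _ : Fin 1 => c) x i)) =
      Fin.append (fun _ => f c) (fun i => f (x i)) := by
    funext i
    refine Fin.addCases (fun i => ?_) (fun i => ?_) i
    · simp
    · simp
  rw [e, hψ'] at hf
  obtain ⟨h1, h2⟩ := hf
  have hbot : (⊥ : AddSubgroup N) ∈ D1 R N := (hCL1 R N).1
  have hu : IsUnit f := hHP ⊥ hbot c (by simpa using hc) f (by simpa using sub_eq_zero.2 h2)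
  obtain ⟨u, hu⟩ := hu
  apply hx
  have h3 := (hBAS R k ψ N).2.2.2 N (↑u⁻¹ : Module.End R N) _ h1
  have h4 : (fun i => (↑u⁻¹ : Module.End R N) (f (x i))) = x := by
    funext i
    rw [← hu]
    have : ((↑u⁻¹ : Module.End R N) * (↑u : Module.End R N)) (x i) = x i := by
      rw [Units.inv_mul]; rfl
    exact this
  rwa [h4] at h3

/-- maximal elements lie in the image of a homomorphism which is strict at a generalised tuple -/
theorem max_range (hGEXT : S_GEXT) (hCL1 : S_CL1) (hNF : S_NF) (hBAS : S_BAS) (hSUB : S_SUB)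
    (R : Type) [Ring R] (N : Type) [AddCommGroup N] [Module R N] (hAC : AC R N) (hHP : HPr R N)
    (M : Type) [AddCommGroup M] [Module R M] (f : M →ₗ[R] N) (k : ℕ) (m : Fin k → M)
    (ψ : PP R k) (hψ : ¬ ψ.Sat N (fun i => f (m i)))
    (hφ : ∀ φ : PP R k, φ.Sat N (fun i => f (m i)) →
      ∃ z : Fin k → M, φ.Sat M z ∧ ψ.Sat M (fun i => z i - m i))
    (c : N) (hc : MaxEl R N c) : ∃ u : M, f u = c := by
  obtain ⟨θ, hθ1, hθ2⟩ := linkT hGEXT hCL1 hNF hBAS R N hAC hHP c hc.1 k ψ _ hψ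
  obtain ⟨ζ, hζ⟩ := exR hNF R 1 k θ ψ
  obtain ⟨Z, hZ, hZm⟩ := (hSUB R N).1 ζ
  have hcZ : c ∉ Z := by
    intro h
    rw [hZm, hζ] at h
    obtain ⟨z, h1, h2⟩ := h
    exact hθ2 z h2 h1
  obtain ⟨C, ⟨κ, hκ⟩, hcC, hCZ⟩ := hc.2 Z hZ hcZ
  obtain ⟨φ, hφ'⟩ := exL hNF R 1 k θ κ
  obtain ⟨z, hz1, hz2⟩ := hφ φ ((hφ' N _).2 ⟨fun _ => c, hθ1, (hκ c).1 hcC⟩)
  obtain ⟨u, hu1, hu2⟩ := (hφ' M z).1 hz1
  refine ⟨u 0, ?_⟩
  have eu : u = fun _ => u 0 := by
    funext i
    rw [Subsingleton.elim i 0]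
  rw [eu] at hu1 hu2
  have h1 := (hBAS R 1 κ M).2.2.2 N f _ hu2
  have h2 := (hBAS R (1 + k) θ M).2.2.2 N f _ hu1
  have h3 := (hBAS R k ψ M).2.2.2 N f _ hz2
  have e : (fun i => f (Fin.append (fun _ : Fin 1 => u 0) z i)) =
      Fin.append (fun _ => f (u 0)) (fun i => f (z i)) := by
    funext i
    refine Fin.addCases (fun i => ?_) (fun i => ?_) i
    · simp
    · simp
  rw [e] at h2
  have h4 := (hBAS R (1 + k) θ N).2.1 _ _ h2 ((hBAS R (1 + k) θ N).2.2.1 _ hθ1)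
  have e' : (fun i => Fin.append (fun _ : Fin 1 => f (u 0)) (fun i => f (z i)) i +
      - Fin.append (fun _ : Fin 1 => c) (fun i => f (m i)) i) =
      Fin.append (fun _ => f (u 0) - c) (fun i => f (z i) - f (m i)) := by
    funext i
    refine Fin.addCases (fun i => ?_) (fun i => ?_) i
    · simp [sub_eq_add_neg]
    · simp [sub_eq_add_neg]
  rw [e'] at h4
  have h5 : f (u 0) - c ∈ C ⊓ Z := by
    exact ⟨C.sub_mem ((hκ _).2 h1) hcC, (hZm _).2 ((hζ N _).2 ⟨_, h4, by simpa using h3⟩)⟩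
  rw [hCZ, AddSubgroup.mem_bot] at h5
  exact sub_eq_zero.1 h5

/-- a direct summand of a pure-injective envelope: the strict generalised tuple -/
theorem env_tuple (hFS : S_FS) (R : Type) [Ring R] (N M H : Type) [AddCommGroup N] [Module R N]
    [AddCommGroup M] [Module R M] [AddCommGroup H] [Module R H] (hN : Nontrivial N)
    (hAC : AC R H) (j : M →ₗ[R] H)
    (hj : ∀ g : Module.End R H, (∀ x, g (j x) = j x) → Function.Injective g)
    (i : N →ₗ[R] H) (π : H →ₗ[R] N) (hπ : ∀ x, π (i x) = x) :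
    ∃ (k : ℕ) (m : Fin k → M) (ψ : PP R k),
      ψ.Sat H (fun l => j (m l) - i (π (j (m l)))) ∧ ¬ ψ.Sat H (fun l => j (m l)) := by
  classical
  by_contra hcon
  push Not at hcon
  obtain ⟨x, hx⟩ := hAC H ({w : H →₀ R // (w.sum fun m r => r • m) = 0} ⊕ M)
    (Sum.elim (fun w => w.1) (fun m => Finsupp.single (j m - i (π (j m))) 1))
    (Sum.elim (fun _ => 0) (fun m => j m)) (by
      intro s
      obtain ⟨k, e⟩ : ∃ k, Nonempty ({m // m ∈ s.toRight} ≃ Fin k) :=
        ⟨_, ⟨(Fintype.equivFin {m // m ∈ s.toRight})⟩⟩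
      obtain ⟨e⟩ := e
      obtain ⟨φ, hφ, hφ'⟩ := hFS R H k
        (fun l => j (e.symm l).1 - i (π (j (e.symm l).1))) (s.toLeft.image Subtype.val) (by
        intro w hw
        rw [Finset.mem_image] at hw
        obtain ⟨w', -, rfl⟩ := hw
        exact w'.2)
      obtain ⟨x, hxa, hxS⟩ := hφ' H (fun l => j (e.symm l).1) (hcon k (fun l => (e.symm l).1) φ hφ)
      refine ⟨x, fun t ht => ?_⟩
      cases t with
      | inl w =>
        exact hxS w.1 (Finset.mem_image_of_mem _ (Finset.mem_toLeft.2 ht))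
      | inr m =>
        have h1 := hxa (e ⟨m, Finset.mem_toRight.2 ht⟩)
        rw [Equiv.symm_apply_apply] at h1
        simpa using h1)
  obtain ⟨g, hg⟩ := GEXT_lin (R := R) x (fun w hw => hx (Sum.inl ⟨w, hw⟩))
  have hgj : ∀ m, g (j m - i (π (j m))) = j m := by
    intro m
    have h1 := hx (Sum.inr m)
    rw [hg]
    simpa using h1
  have hinj := hj (g ∘ₗ (LinearMap.id - i ∘ₗ π)) (fun m => by
    simpa using hgj m)
  obtain ⟨y, hy⟩ := exists_ne (0 : N)
  apply hy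
  have h0 : i y = 0 := by
    apply hinj
    simp [hπ]
  rw [← hπ y, h0, map_zero]

/-- maximal elements of a direct summand of the pure-injective envelope of `M` come from `M` -/
theorem max_env (hFS : S_FS) (hGEXT : S_GEXT) (hCL1 : S_CL1) (hNF : S_NF) (hBAS : S_BAS)
    (hSUB : S_SUB) (R : Type) [Ring R] (N M H : Type) [AddCommGroup N] [Module R N]
    [AddCommGroup M] [Module R M] [AddCommGroup H] [Module R H] (hG : Good R N)
    (hAC : AC R H) (j : M →ₗ[R] H)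
    (hp : ∀ (k : ℕ) (φ : PP R k) (m : Fin k → M), φ.Sat H (fun l => j (m l)) → φ.Sat M m)
    (hj : ∀ g : Module.End R H, (∀ x, g (j x) = j x) → Function.Injective g)
    (i : N →ₗ[R] H) (π : H →ₗ[R] N) (hπ : ∀ x, π (i x) = x) (c : N) (hc : MaxEl R N c) :
    ∃ u : M, π (j u) = c := by
  obtain ⟨k, m, ψ, h1, h2⟩ := env_tuple hFS R N M H hG.nt hAC j hj i π hπ
  refine max_range hGEXT hCL1 hNF hBAS hSUB R N hG.ac hG.hp M (π.comp j) k m ψ ?_ ?_ c hc
  · intro h3
    apply h2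
    have h4 := (hBAS R k ψ N).2.2.2 H i _ h3
    have h5 := (hBAS R k ψ H).2.1 _ _ h1 h4
    simpa using h5
  · intro φ hφ
    -- the formula `∃ y, φ(y) ∧ ψ(y - z)`
    classical
    obtain ⟨ζ, hζ⟩ := NF2 hNF R k k k k φ ψ (fun _ _ => 0) (fun j i => if i = j then 1 else 0)
      (fun j i => if i = j then -1 else 0) (fun j i => if i = j then 1 else 0)
    have e1 : ∀ (L : Type) [AddCommGroup L] [Module R L] (z : Fin k → L), ζ.Sat L z ↔
        ∃ y : Fin k → L, φ.Sat L y ∧ ψ.Sat L (fun l => y l - z l) := by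
      intro L _ _ z
      rw [hζ]
      have e2 : ∀ y : Fin k → L, (fun j => ∑ i, (0 : R) • z i +
          ∑ l, (if l = j then (1 : R) else 0) • y l) = y := by
        intro y
        funext j
        simp
      have e3 : ∀ y : Fin k → L, (fun j => ∑ i, (if i = j then (-1 : R) else 0) • z i +
          ∑ l, (if l = j then (1 : R) else 0) • y l) = fun l => y l - z l := by
        intro y
        funext j
        simp [sub_eq_add_neg, add_comm]
      constructor
      · rintro ⟨y, h3, h4⟩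
        rw [e2] at h3
        rw [e3] at h4
        exact ⟨y, h3, h4⟩
      · rintro ⟨y, h3, h4⟩
        refine ⟨y, ?_, ?_⟩
        · rw [e2]; exact h3
        · rw [e3]; exact h4
    apply (e1 M m).1
    apply hp
    apply (e1 H _).2
    refine ⟨fun l => i (π (j (m l))), (hBAS R k φ N).2.2.2 H i _ hφ, ?_⟩
    have h3 := (hBAS R k ψ H).2.2.1 _ h1
    simpa using h3

end Pool.Agent.Work.MP_edf6ee_al.SD
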