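import Pool.Agent.Work.MP_edf6ee_al.SD.Gen

/-!
# MP_edf6ee_al: superdecomposable direct summands of powers
-/

set_option autoImplicit false

namespace Pool.Agent.Work.MP_edf6ee_al.SD

open scoped BigOperators
open Pool.Agent.Work.MP_edf6ee_al.CP

section powers

variable (R : Type) [Ring R] (N : Type) [AddCommGroup N] [Module R N] (I : Type)

theorem pow_sat (n : ℕ) (φ : PP R n) (x : Fin n → (I → N)) :
    φ.Sat (I → N) x ↔ ∀ t : I, φ.Sat N (fun j => x j t) := by
  constructor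
  · rintro ⟨y, hy⟩ t
    refine ⟨fun l => y l t, fun i => ?_⟩
    have h1 := congrFun (hy i) t
    simpa [Finset.sum_apply] using h1
  · intro h
    choose y hy using h
    refine ⟨fun l t => y t l, fun i => ?_⟩
    funext t
    have h1 := hy t i
    simpa [Finset.sum_apply] using h1

theorem pow_AC (h : AC R N) : AC R (I → N) := by
  intro J E row rhs hfin
  have h1 : ∀ t : I, ∃ x : J → N, ∀ e, ((row e).sum fun i r => r • x i) = rhs e t := by
    intro t
    refine h J E row (fun e => rhs e t) ?_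
    intro s
    obtain ⟨x, hx⟩ := hfin s
    refine ⟨fun i => x i t, fun e he => ?_⟩
    have h2 := congrFun (hx e he) t
    rw [← h2]
    simp [Finsupp.sum, Finset.sum_apply]
  choose x hx using h1
  refine ⟨fun i t => x t i, fun e => ?_⟩
  funext t
  rw [← hx t e]
  simp [Finsupp.sum, Finset.sum_apply]

theorem pow_DefC : DefC R N (I → N) := by
  intro n φ ψ h x hx
  rw [pow_sat] at hx ⊢
  exact fun t => h _ (hx t)

end powers

theorem ret_DefC (hBAS : S_BAS) (R : Type) [Ring R] (N M P : Type) [AddCommGroup N] [Module R N]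
    [AddCommGroup M] [Module R M] [AddCommGroup P] [Module R P] (hM : DefC R N M)
    (j : P →ₗ[R] M) (ρ : M →ₗ[R] P) (hjρ : ∀ x, ρ (j x) = x) : DefC R N P := by
  intro n φ ψ h x hx
  have h1 := (hBAS R n φ P).2.2.2 M j x hx
  have h2 := hM n φ ψ h _ h1
  have h3 := (hBAS R n ψ M).2.2.2 P ρ _ h2
  simpa [hjρ] using h3

/-- an indecomposable pure-injective module in the definable closure of a closed point is
isomorphic to it -/
theorem iso_of (R : Type) [Ring R] (N P : Type) [AddCommGroup N] [Module R N]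
    [AddCommGroup P] [Module R P] (hC : ClosedPt R N) (hI : Indec R P) (hP : PInj R P)
    (hD : DefC R N P) : Nonempty (P ≃ₗ[R] N) := by
  by_contra hcon
  rw [not_nonempty_iff] at hcon
  obtain ⟨φ, ψ, ⟨x, hx1, hx2⟩, hN⟩ := hC P hI hP hcon
  refine hx2 (hD 1 φ ψ ?_ _ hx1)
  intro x hx
  have e : x = fun _ => x 0 := by
    ext j; fin_cases j; rfl
  rw [e] at hx ⊢
  exact hN _ hx

/-- SUP: a closed point without minimal pairs has a superdecomposable direct summand in a power. -/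
def S_SUP : Prop :=
  ∀ (R : Type) [Ring R] (N : Type) [AddCommGroup N] [Module R N], Good R N → ClosedPt R N →
    NoMin R N → ∃ (H : Type) (_ : AddCommGroup H) (_ : Module R H) (i : H →ₗ[R] (N → N))
      (π : (N → N) →ₗ[R] H), (∀ x, π (i x) = x) ∧ Nontrivial H ∧ PInj R H ∧
      ∀ (P : Type) [AddCommGroup P] [Module R P] (j : P →ₗ[R] H) (ρ : H →ₗ[R] P),
        (∀ x, ρ (j x) = x) → ¬ Indec R P

/-- the formula `x₀ = x₁` -/
def eqF (R : Type) [Ring R] : PP R 2 := ⟨1, 0, fun _ => ![1, -1], fun _ _ => 0⟩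

theorem eqF_sat (R : Type) [Ring R] (M : Type) [AddCommGroup M] [Module R M] (x : Fin 2 → M) :
    (eqF R).Sat M x ↔ x 0 = x 1 := by
  simp [eqF, PP.Sat, Fin.sum_univ_two, ← sub_eq_add_neg, sub_eq_zero]

theorem pr_SUP (hGEN : S_GEN) (hHULL : S_HULL) (hRET : S_RET) (hPAC : S_PAC) (hGEXT : S_GEXT)
    (hBAS : S_BAS) (hSUB : S_SUB) (hCL1 : S_CL1) : S_SUP := by
  intro R _ N _ _ hG hC hNM
  have : Nontrivial N := hG.nt
  have hMAC : AC R (N → N) := pow_AC R N N hG.ac
  obtain ⟨b, hbdef⟩ : ∃ b : N → N, b = fun x => x := ⟨_, rfl⟩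
  have hb0 : b ≠ 0 := by
    obtain ⟨x, hx⟩ := exists_ne (0 : N)
    intro h
    apply hx
    have h1 := congrFun h x
    rw [hbdef] at h1
    exact h1
  have hb0' : b ∉ (⊥ : AddSubgroup (N → N)) := by
    rw [AddSubgroup.mem_bot]
    exact hb0
  obtain ⟨e, hee, heb, hmin⟩ := hHULL R (N → N) hMAC ⊥ (hCL1 R (N → N)).1 b hb0'
  have heb' : e b = b := by
    rw [AddSubgroup.mem_bot] at heb
    exact sub_eq_zero.1 heb
  have hee' : ∀ x, e (e x) = e x := fun x => LinearMap.congr_fun hee x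
  have hret : ∀ x : LinearMap.range e, e.rangeRestrict ((LinearMap.range e).subtype x) = x := by
    rintro ⟨x, y, rfl⟩
    exact Subtype.ext (hee' y)
  refine ⟨LinearMap.range e, inferInstance, inferInstance, (LinearMap.range e).subtype,
    e.rangeRestrict, hret, ?_, ?_, ?_⟩
  · refine ⟨⟨⟨b, b, heb'⟩, 0, ?_⟩⟩
    intro h
    exact hb0 (congrArg Subtype.val h)
  · exact hPAC R _ (hRET R (N → N) (LinearMap.range e) (LinearMap.range e).subtype e.rangeRestrict
      hret hMAC)
  · intro P _ _ j ρ hjρ hI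
    obtain ⟨J, hJ⟩ : ∃ J : P →ₗ[R] (N → N), J = (LinearMap.range e).subtype.comp j := ⟨_, rfl⟩
    obtain ⟨ρ', hρ'⟩ : ∃ ρ' : (N → N) →ₗ[R] P, ρ' = ρ.comp e.rangeRestrict := ⟨_, rfl⟩
    have hJρ : ∀ x, ρ' (J x) = x := by
      intro x
      rw [hJ, hρ', LinearMap.comp_apply, LinearMap.comp_apply, hret, hjρ]
    have heJ : ∀ x, e (J x) = J x := by
      intro x
      rw [hJ, LinearMap.comp_apply]
      exact congrArg Subtype.val (hret (j x))
    have hPAC' : AC R P := hRET R (N → N) P J ρ' hJρ hMAC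
    obtain ⟨σ⟩ := iso_of R N P hC hI (hPAC R P hPAC')
      (ret_DefC hBAS R N (N → N) P (pow_DefC R N N) J ρ' hJρ)
    -- the formula
    have hψ : ∃ ψ : PP R 1, ψ.Sat (N → N) (fun _ => b - J (ρ' b)) ∧
        ¬ ψ.Sat (N → N) (fun _ => b) := by
      by_contra hcon
      push Not at hcon
      obtain ⟨f, hf⟩ := hGEXT R (N → N) (N → N) hMAC 1 1 (fun _ => b - J (ρ' b)) (eqF R)
        (fun _ => b) (fun φ hφ => ⟨fun _ => b, hcon φ hφ, by
          rw [eqF_sat]
          simp [Fin.append, Fin.addCases]⟩)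
      rw [eqF_sat] at hf
      have hf' : f (b - J (ρ' b)) = b := by
        simpa [Fin.append, Fin.addCases] using hf
      obtain ⟨h, -, hh⟩ := hmin (f * (1 - J.comp ρ')) (by
        rw [AddSubgroup.mem_bot]
        have h1 : (f * (1 - J.comp ρ')) b = f (b - J (ρ' b)) := rfl
        rw [h1, hf', sub_self])
      obtain ⟨z, hz⟩ := @exists_ne P hI.1 0
      apply hz
      have h2 := LinearMap.congr_fun hh (J z)
      have h3 : (h * (f * (1 - J.comp ρ')) * e) (J z) = h (f (e (J z) - J (ρ' (e (J z))))) := rfl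
      rw [h3, heJ, hJρ, sub_self, map_zero, map_zero] at h2
      rw [← hJρ z, ← h2, map_zero]
    obtain ⟨ψ, hψ1, hψ2⟩ := hψ
    obtain ⟨A, hA, hAψ⟩ := (hSUB R N).1 ψ
    have hAtop : A < ⊤ := by
      rw [lt_top_iff_ne_top]
      intro h
      apply hψ2
      rw [pow_sat]
      intro t
      rw [← hAψ, h]
      trivial
    obtain ⟨ζ, hζ, hAζ, hζtop, haζ⟩ := hGEN R N hG hNM A hA ⊤ (hCL1 R N).2.1 hAtop (σ (ρ' b))
      trivial
    obtain ⟨z, hz⟩ := hζ
    apply hζtop.ne
    rw [eq_top_iff]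
    intro x _
    have h1 : z.Sat (N → N) (fun _ => J (ρ' b)) := by
      have h2 := (hBAS R 1 z N).2.2.2 P σ.symm.toLinearMap _ ((hz _).1 haζ)
      have h3 := (hBAS R 1 z P).2.2.2 (N → N) J _ h2
      simpa using h3
    have h2 : z.Sat (N → N) (fun _ => b - J (ρ' b)) := by
      rw [pow_sat] at hψ1 ⊢
      intro t
      exact (hz _).1 (hAζ ((hAψ _).2 (hψ1 t)))
    have h3 := (hBAS R 1 z (N → N)).2.1 _ _ h1 h2
    have h4 : (fun _ : Fin 1 => J (ρ' b) + (b - J (ρ' b))) = fun _ => b := by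
      funext _
      abel
    rw [h4, pow_sat] at h3
    have h5 := h3 x
    rw [hbdef] at h5
    exact (hz x).2 h5

end Pool.Agent.Work.MP_edf6ee_al.SD
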