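import Pool.Agent.Work.MP_edf6ee_al.AU.All
import Pool.Agent.Work.MP_edf6ee_al.SD.Cor
import Pool.Agent.Work.MP_edf6ee_al.SD.Sup
import Pool.Agent.Work.MP_edf6ee_al.SD.Hul

/-!
# MP_edf6ee_al: small closed points and superdecomposable summands, all items put together
-/

set_option autoImplicit false

namespace Pool.Agent.Work.MP_edf6ee_al.SD

open scoped BigOperators Cardinal
open Pool.Agent.Work.MP_edf6ee_al.CP
open Pool.Agent.Work.MP_edf6ee_al

theorem u_GEN : S_GEN := pr_GEN AU.t_SOC AU.t_CL1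
theorem u_NCG : S_NCG := pr_NCG u_GEN AU.t_MAX AU.t_CL1
theorem u_IN0 : S_IN0 := pr_IN0 AU.t_NU AU.t_MAX AU.t_CL1
theorem u_IND : S_IND := pr_IND u_IN0 AU.t_MR AU.t_CL1 AU.t_CL2 AU.t_BAS
theorem u_SUP : S_SUP :=
  pr_SUP u_GEN AU.t_HULL AU.t_RET AU.t_PAC AU.t_GEXT AU.t_BAS AU.t_SUB AU.t_CL1

theorem good (R : Type) [Ring R] (N : Type) [AddCommGroup N] [Module R N]
    (hI : Indec R N) (hP : PInj R N) (hC : ClosedPt R N) : Good R N :=
  good_of AU.t_ACP AU.t_HP AU.t_IRR AU.t_LINK AU.t_REAL R N hI hP hC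

theorem noMin (R : Type) [Ring R] (N : Type) [AddCommGroup N] [Module R N] (hG : Good R N)
    (hinf : ¬ IsFiniteLength (Module.End R N) N) : NoMin R N :=
  noMin_of AU.t_F0 AU.t_FL R N hG hinf

/-- a closed point without minimal pairs which is a direct summand of the pure-injective envelope
of `M`, over a noetherian algebra: every generating set of `M` has at least continuum many
elements -/
theorem big_env (K : Type) [CommRing K] [IsNoetherianRing K] (R : Type) [Ring R] [Algebra K R]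
    [Module.Finite K R] (N : Type) [AddCommGroup N] [Module R N] (hG : Good R N)
    (hNM : NoMin R N) (M H : Type) [AddCommGroup M] [Module R M] [AddCommGroup H] [Module R H]
    (hP : PInj R H) (j : M →ₗ[R] H)
    (hp : ∀ (k : ℕ) (φ : PP R k) (m : Fin k → M), φ.Sat H (fun l => j (m l)) → φ.Sat M m)
    (hj : ∀ g : Module.End R H, (∀ x, g (j x) = j x) → Function.Injective g)
    (i : N →ₗ[R] H) (π : H →ₗ[R] N) (hπ : ∀ x, π (i x) = x)
    (X : Set M) (hX : Submodule.span R X = ⊤) : Cardinal.continuum ≤ #X := by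
  obtain ⟨hbot, htop, hinf', hsup, hend⟩ := AU.t_CL1 R N
  have : Nontrivial N := hG.nt
  obtain ⟨b, hb, hind⟩ := u_IN0 R N hG hNM ⊤ htop (fun h => top_ne_bot h)
  have hu : ∀ f, ∃ u : M, π (j u) = b f := fun f =>
    max_env AU.t_FS AU.t_GEXT AU.t_CL1 AU.t_NF AU.t_BAS AU.t_SUB R N M H hG (AU.t_ACP R H hP)
      j hp hj i π hπ (b f) (hb f).2
  choose u hu using hu
  exact gen_big K R N M (π.comp j) b (fun f => (hb f).2.1) hind u hu X hX

end Pool.Agent.Work.MP_edf6ee_al.SD
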