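import Pool.Agent.Work.MP_edf6ee_al.CP.Stmts

/-!
# MP_edf6ee_al: no generic elements, and countable generation over the endomorphism ring
-/

set_option autoImplicit false

namespace Pool.Agent.Work.MP_edf6ee_al.SD

open scoped BigOperators
open Pool.Agent.Work.MP_edf6ee_al.CP

/-- GEN: in a closed point without minimal pairs no element is generic in an interval. -/
def S_GEN : Prop :=
  ∀ (R : Type) [Ring R] (N : Type) [AddCommGroup N] [Module R N], Good R N → NoMin R N →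
    ∀ ψ ∈ D1 R N, ∀ φ ∈ D1 R N, ψ < φ → ∀ x ∈ φ, ∃ ζ ∈ D1 R N, ψ ≤ ζ ∧ ζ < φ ∧ x ∈ ζ

theorem pr_GEN (hSOC : S_SOC) (hCL1 : S_CL1) : S_GEN := by
  intro R _ N _ _ hG hNM ψ hψ φ hφ hlt x hxφ
  by_contra hcon
  push Not at hcon
  obtain ⟨hbot, htop, hinf, hsup, -⟩ := hCL1 R N
  have hxψ : x ∉ ψ := hcon ψ hψ le_rfl hlt
  have hx0 : x ≠ 0 := by
    rintro rfl
    exact hxψ ψ.zero_mem
  obtain ⟨η, hη, hxη, hsoc⟩ := hSOC R N hG x hx0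
  obtain ⟨θ', hθ', hxθ', hirr⟩ := hG.irr x η hη ψ hψ hxη hxψ
  have hT : θ' ⊓ φ ∈ D1 R N := hinf _ hθ' _ hφ
  have hμ : ((θ' ⊓ φ) ⊓ η) ⊔ ψ ∈ D1 R N := hsup _ (hinf _ hT _ hη) _ hψ
  have hxμ : x ∉ ((θ' ⊓ φ) ⊓ η) ⊔ ψ := by
    intro hx
    rw [AddSubgroup.mem_sup] at hx
    obtain ⟨s, hs, t, ht, hst⟩ := hx
    apply hirr
    rw [AddSubgroup.mem_sup]
    have htθ : t ∈ θ' := by
      have : t = x - s := by rw [← hst]; abel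
      rw [this]
      exact θ'.sub_mem hxθ' hs.1.1
    exact ⟨s, ⟨hs.1.1, hs.2⟩, t, ⟨htθ, ht⟩, hst⟩
  have hμφ : ((θ' ⊓ φ) ⊓ η) ⊔ ψ ≤ φ := sup_le (inf_le_left.trans inf_le_right) hlt.le
  have hμlt : ((θ' ⊓ φ) ⊓ η) ⊔ ψ < φ := by
    refine lt_of_le_of_ne hμφ ?_
    intro h
    rw [h] at hxμ
    exact hxμ hxφ
  have hnm := hNM _ hμ _ hφ
  unfold MinPair at hnm
  push Not at hnm
  obtain ⟨ζ, hζ, hμζ, hζφ, hζ1, hζ2⟩ := hnm hμlt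
  have hζlt : ζ < φ := lt_of_le_of_ne hζφ hζ2
  have hψζ : ψ ≤ ζ := le_sup_right.trans hμζ
  have hxζ : x ∉ ζ := hcon ζ hζ hψζ hζlt
  obtain ⟨θ, hθ, hxθ, hθζ⟩ := hsoc ζ hζ hxζ
  have hT2 : θ ⊓ (θ' ⊓ φ) ∈ D1 R N := hinf _ hθ _ hT
  have hxT2 : x ∈ θ ⊓ (θ' ⊓ φ) := ⟨hxθ, hxθ', hxφ⟩
  have hsupeq : (θ ⊓ (θ' ⊓ φ)) ⊔ ψ = φ := by
    by_contra hne
    have hle : (θ ⊓ (θ' ⊓ φ)) ⊔ ψ ≤ φ := sup_le (inf_le_right.trans inf_le_right) hlt.le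
    exact hcon _ (hsup _ hT2 _ hψ) le_sup_right (lt_of_le_of_ne hle hne)
      ((le_sup_left : θ ⊓ (θ' ⊓ φ) ≤ _) hxT2)
  have hζle : ζ ≤ ((θ' ⊓ φ) ⊓ η) ⊔ ψ := by
    have h1 : ζ = (ψ ⊔ (θ ⊓ (θ' ⊓ φ))) ⊓ ζ := by
      rw [sup_comm, hsupeq]
      exact (inf_eq_right.2 hζφ).symm
    rw [sup_inf_assoc_of_le _ hψζ] at h1
    rw [h1, sup_comm]
    refine sup_le_sup_right (le_inf (inf_le_left.trans inf_le_right) ?_) _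
    refine le_trans ?_ hθζ
    exact le_inf (inf_le_left.trans inf_le_left) inf_le_right
  exact hζ1 (le_antisymm hζle hμζ)

/-- NCG: no nonzero interval of a closed point without minimal pairs is countably generated over
the endomorphism ring. -/
def S_NCG : Prop :=
  ∀ (R : Type) [Ring R] (N : Type) [AddCommGroup N] [Module R N], Good R N → NoMin R N →
    ∀ ψ ∈ D1 R N, ∀ φ ∈ D1 R N, ψ < φ → ∀ x : ℕ → N, (∀ n, x n ∈ φ) →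
      ∃ a ∈ φ, ∀ (m : ℕ) (g : ℕ → Module.End R N),
        a - ∑ n ∈ Finset.range m, g n (x n) ∉ ψ

theorem pr_NCG (hGEN : S_GEN) (hMAX : S_MAX) (hCL1 : S_CL1) : S_NCG := by
  intro R _ N _ _ hG hNM ψ hψ φ hφ hlt x hx
  obtain ⟨hbot, htop, hinf, hsup, hend⟩ := hCL1 R N
  have hst : ∀ (n : ℕ) (α : {α : AddSubgroup N // α ∈ D1 R N ∧ ψ ≤ α ∧ α < φ}),
      ∃ β : {α : AddSubgroup N // α ∈ D1 R N ∧ ψ ≤ α ∧ α < φ}, α.1 ≤ β.1 ∧ x n ∈ β.1 := by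
    intro n α
    obtain ⟨ζ, h1, h2, h3, h4⟩ := hGEN R N hG hNM α.1 α.2.1 φ hφ α.2.2.2 (x n) (hx n)
    exact ⟨⟨ζ, h1, α.2.2.1.trans h2, h3⟩, h2, h4⟩
  choose st hst1 hst2 using hst
  let Ψ : ℕ → {α : AddSubgroup N // α ∈ D1 R N ∧ ψ ≤ α ∧ α < φ} := fun n =>
    Nat.rec ⟨ψ, hψ, le_rfl, hlt⟩ (fun n α => st n α) n
  have hΨs : ∀ n, Ψ (n + 1) = st n (Ψ n) := fun n => rfl
  have hmono : Monotone fun n => (Ψ n).1 :=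
    monotone_nat_of_le_succ fun n => by rw [hΨs]; exact hst1 _ _
  obtain ⟨p, hp, hpi, hp0, hpΩ, -⟩ := hMAX R N {B | B ∈ D1 R N ∧ φ ≤ B}
    (Set.range fun n => (Ψ n).1)
    { sub := fun B hB => hB.1
      top := ⟨htop, le_top⟩
      up := fun A hA B hB hAB => ⟨hB, hA.2.trans hAB⟩
      inf := fun A hA B hB => ⟨hinf A hA.1 B hB.1, le_inf hA.2 hB.2⟩ }
    (by rintro _ ⟨n, rfl⟩; exact (Ψ n).2.1) ⟨_, 0, rfl⟩
    (by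
      rintro _ ⟨n, rfl⟩ _ ⟨m, rfl⟩
      exact ⟨_, ⟨max n m, rfl⟩, sup_le (hmono (le_max_left n m)) (hmono (le_max_right n m))⟩)
    (by
      rintro _ ⟨m, rfl⟩ ⟨_, hn⟩
      exact absurd hn (not_le_of_gt (Ψ m).2.2.2))
  have hbotp : ⊥ ∉ p := fun h => hpΩ _ ⟨0, rfl⟩ (hp.up _ h _ (Ψ 0).2.1 bot_le)
  obtain ⟨a, ha⟩ := hG.real p hp hpi hbotp
  refine ⟨a, (ha φ hφ).1 (hp0 ⟨hφ, le_rfl⟩), ?_⟩
  intro m g hmem
  apply hpΩ _ ⟨m, rfl⟩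
  rw [ha _ (Ψ m).2.1]
  have h1 : a = (a - ∑ n ∈ Finset.range m, g n (x n)) + ∑ n ∈ Finset.range m, g n (x n) := by abel
  rw [h1]
  refine AddSubgroup.add_mem _ ((Ψ m).2.2.1 hmem) (AddSubgroup.sum_mem _ ?_)
  intro n hn
  have h2 : x n ∈ (Ψ (n + 1)).1 := by rw [hΨs]; exact hst2 _ _
  exact hmono (Nat.succ_le_of_lt (Finset.mem_range.1 hn)) (hend _ (Ψ (n + 1)).2.1 (g n) _ h2)

end Pool.Agent.Work.MP_edf6ee_al.SD
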